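import Mathlib

set_option autoImplicit false

/-! # The law of large numbers for pairwise negatively correlated events -/

open MeasureTheory ProbabilityTheory Filter Finset Topology

namespace Pool.Agent.U839.Fb

variable {Ω : Type*} [MeasurableSpace Ω] {μ : Measure Ω} [IsProbabilityMeasure μ]

open Classical in
/-- how many of the first `N` events happen -/
noncomputable def cc (A : ℕ → Set Ω) (ω : Ω) (N : ℕ) : ℕ := ((range N).filter (fun n => ω ∈ A n)).card

omit [MeasurableSpace Ω] in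
theorem cc_mono (A : ℕ → Set Ω) (ω : Ω) : Monotone (cc A ω) := by
  classical
  intro a b hab
  unfold cc
  apply card_le_card
  apply filter_subset_filter
  intro n hn
  rw [Finset.mem_range] at hn ⊢
  omega

theorem real_le_one (s : Set Ω) : μ.real s ≤ 1 := by
  rw [← probReal_univ (μ := μ)]
  exact measureReal_mono (Set.subset_univ s) (measure_ne_top _ _)

/-- Chebyshev's inequality -/
theorem cheb (A : ℕ → Set Ω) (hA : ∀ n, MeasurableSet (A n))
    (hneg : ∀ i j, i ≠ j → μ.real (A i ∩ A j) ≤ μ.real (A i) * μ.real (A j)) (N : ℕ) (t : ℝ) (ht : 0 < t) :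
    μ.real {ω | t ≤ |(cc A ω N : ℝ) - ∑ n ∈ range N, μ.real (A n)|} ≤
      (∑ n ∈ range N, μ.real (A n)) / t ^ 2 := by
  classical
  obtain ⟨m, hm⟩ : ∃ m : ℝ, m = ∑ i ∈ range N, μ.real (A i) := ⟨_, rfl⟩
  rw [← hm]
  obtain ⟨f, hf⟩ : ∃ f : ℕ → Ω → ℝ, f = fun i => (A i).indicator (fun _ => (1 : ℝ)) := ⟨_, rfl⟩
  obtain ⟨X, hX⟩ : ∃ X : Ω → ℝ, X = fun ω => ∑ i ∈ range N, f i ω := ⟨_, rfl⟩
  have hXc : ∀ ω, X ω = (cc A ω N : ℝ) := by
    intro ω
    rw [hX, hf]
    unfold cc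
    simp only [Set.indicator_apply]
    rw [Finset.sum_boole]
  have hfi : ∀ i ∈ range N, Integrable (f i) μ := fun i _ => by
    rw [hf]
    exact (integrable_const (1 : ℝ)).indicator (hA i)
  have hf1 : ∀ i ∈ range N, ∫ ω, f i ω ∂μ = μ.real (A i) := by
    intro i _
    rw [hf]
    simp only
    rw [integral_indicator_const _ (hA i)]
    simp
  have hff : ∀ i ∈ range N, ∀ j ∈ range N, Integrable (fun ω => f i ω * f j ω) μ ∧
      ∫ ω, f i ω * f j ω ∂μ = μ.real (A i ∩ A j) := by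
    intro i _ j _
    have e : (fun ω => f i ω * f j ω) = (A i ∩ A j).indicator (fun _ => (1 : ℝ)) := by
      funext ω
      rw [hf]
      simp only [Set.indicator_apply, Set.mem_inter_iff]
      by_cases h1 : ω ∈ A i <;> by_cases h2 : ω ∈ A j <;> simp [h1, h2]
    rw [e]
    refine ⟨(integrable_const (1 : ℝ)).indicator ((hA i).inter (hA j)), ?_⟩
    rw [integral_indicator_const _ ((hA i).inter (hA j))]
    simp
  have hXint : Integrable X μ := by
    rw [hX]
    exact integrable_finsetSum _ hfi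
  have hX1 : ∫ ω, X ω ∂μ = m := by
    rw [hX, integral_finsetSum _ hfi, hm]
    exact Finset.sum_congr rfl hf1
  have hX2e : (fun ω => X ω ^ 2) = fun ω => ∑ i ∈ range N, ∑ j ∈ range N, f i ω * f j ω := by
    funext ω
    rw [hX]
    simp only
    rw [sq, Finset.sum_mul_sum]
  have hX2i : Integrable (fun ω => X ω ^ 2) μ := by
    rw [hX2e]
    exact integrable_finsetSum _ fun i hi => integrable_finsetSum _ fun j hj => (hff i hi j hj).1
  have hX2 : ∫ ω, X ω ^ 2 ∂μ ≤ m + m ^ 2 := by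
    rw [hX2e, integral_finsetSum _ fun i hi => integrable_finsetSum _ fun j hj => (hff i hi j hj).1]
    have h1 : ∀ i ∈ range N, ∫ ω, ∑ j ∈ range N, f i ω * f j ω ∂μ =
        ∑ j ∈ range N, μ.real (A i ∩ A j) := by
      intro i hi
      rw [integral_finsetSum _ fun j hj => (hff i hi j hj).1]
      exact Finset.sum_congr rfl fun j hj => (hff i hi j hj).2
    rw [Finset.sum_congr rfl h1]
    have h2 : m ^ 2 = ∑ i ∈ range N, ∑ j ∈ range N, μ.real (A i) * μ.real (A j) := by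
      rw [sq, hm, Finset.sum_mul_sum]
    have h3 : ∀ i ∈ range N, ∑ j ∈ range N, μ.real (A i ∩ A j) ≤
        μ.real (A i) + ∑ j ∈ range N, μ.real (A i) * μ.real (A j) := by
      intro i hi
      have h4 : ∀ j ∈ range N, μ.real (A i ∩ A j) ≤ (if j = i then μ.real (A i) else 0) +
          μ.real (A i) * μ.real (A j) := by
        intro j _
        split_ifs with h5
        · rw [h5, Set.inter_self]
          have : 0 ≤ μ.real (A i) * μ.real (A i) := by positivity
          linarith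
        · rw [zero_add]
          exact hneg i j (fun h => h5 h.symm)
      refine (Finset.sum_le_sum h4).trans ?_
      rw [Finset.sum_add_distrib, Finset.sum_ite_eq' , if_pos hi]
    refine (Finset.sum_le_sum h3).trans ?_
    rw [Finset.sum_add_distrib, ← hm, ← h2]
  have hvar : ∫ ω, (X ω - m) ^ 2 ∂μ ≤ m := by
    have h1 : (fun ω => (X ω - m) ^ 2) = fun ω => (X ω ^ 2 - (2 * m) * X ω) + m ^ 2 := by
      funext ω
      ring
    have h3 : Integrable (fun ω => X ω ^ 2 - (2 * m) * X ω) μ := hX2i.sub (hXint.const_mul (2 * m))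
    rw [h1, integral_add h3 (integrable_const _),
      integral_sub hX2i (hXint.const_mul (2 * m)), integral_const_mul, hX1, integral_const]
    simp only [probReal_univ, smul_eq_mul, one_mul]
    nlinarith
  have hvi : Integrable (fun ω => (X ω - m) ^ 2) μ := by
    have h1 : (fun ω => (X ω - m) ^ 2) = fun ω => (X ω ^ 2 - (2 * m) * X ω) + m ^ 2 := by
      funext ω
      ring
    rw [h1]
    exact (hX2i.sub (hXint.const_mul (2 * m))).add (integrable_const _)
  have hmk := mul_meas_ge_le_integral_of_nonneg (μ := μ)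
    (Filter.Eventually.of_forall (fun ω => sq_nonneg (X ω - m))) hvi (t ^ 2)
  have hsub : {ω | t ≤ |(cc A ω N : ℝ) - m|} ⊆ {ω | t ^ 2 ≤ (X ω - m) ^ 2} := by
    intro ω hω
    simp only [Set.mem_ofPred_eq] at hω ⊢
    rw [← hXc ω] at hω
    rw [← sq_abs (X ω - m)]
    exact pow_le_pow_left₀ ht.le hω 2
  have h5 := measureReal_mono (μ := μ) hsub (measure_ne_top _ _)
  have h6 : t ^ 2 * μ.real {ω | t ^ 2 ≤ (X ω - m) ^ 2} ≤ m := hmk.trans hvar
  rw [le_div_iff₀ (by positivity)]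
  nlinarith [mul_le_mul_of_nonneg_right h5 (sq_nonneg t)]

theorem borel {B : ℕ → Set Ω} (h : Summable (fun k => μ.real (B k))) :
    ∀ᵐ ω ∂μ, ∀ᶠ k in atTop, ω ∉ B k := by
  apply ae_eventually_notMem
  have h1 : ∀ k, μ (B k) = ENNReal.ofReal (μ.real (B k)) := fun k =>
    (ofReal_measureReal (measure_ne_top _ _)).symm
  simp_rw [h1]
  exact h.tsum_ofReal_ne_top

/-- the law of large numbers -/
theorem slln (A : ℕ → Set Ω) (hA : ∀ n, MeasurableSet (A n))
    (hneg : ∀ i j, i ≠ j → μ.real (A i ∩ A j) ≤ μ.real (A i) * μ.real (A j))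
    (hM : Tendsto (fun N => ∑ n ∈ range N, μ.real (A n)) atTop atTop) :
    ∀ᵐ ω ∂μ, Tendsto (fun N => (cc A ω N : ℝ) / ∑ n ∈ range N, μ.real (A n)) atTop (𝓝 1) := by
  classical
  obtain ⟨M, hMd⟩ : ∃ M : ℕ → ℝ, M = fun N => ∑ n ∈ range N, μ.real (A n) := ⟨_, rfl⟩
  have hM' : Tendsto M atTop atTop := by rw [hMd]; exact hM
  have hmono : Monotone M := by
    apply monotone_nat_of_le_succ
    intro n
    rw [hMd]
    simp only
    rw [Finset.sum_range_succ]
    linarith [measureReal_nonneg (μ := μ) (s := A n)]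
  have hjump : ∀ n, M (n + 1) ≤ M n + 1 := by
    intro n
    rw [hMd]
    simp only
    rw [Finset.sum_range_succ]
    linarith [real_le_one (μ := μ) (A n)]
  have hM0 : M 0 = 0 := by rw [hMd]; simp
  have hex : ∀ k : ℕ, ∃ N, ((k : ℝ) + 1) ^ 2 ≤ M N := fun k => (hM'.eventually_ge_atTop _).exists
  obtain ⟨x, hx⟩ : ∃ x : ℕ → ℕ, x = fun k => Nat.find (hex k) := ⟨_, rfl⟩
  have hx1 : ∀ k : ℕ, ((k : ℝ) + 1) ^ 2 ≤ M (x k) := fun k => by rw [hx]; exact Nat.find_spec (hex k)
  have hx2 : ∀ k : ℕ, M (x k) ≤ ((k : ℝ) + 1) ^ 2 + 1 := by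
    intro k
    have h1 : x k ≠ 0 := by
      intro h0
      have := hx1 k
      rw [h0, hM0] at this
      have h2 : (0 : ℝ) ≤ k := Nat.cast_nonneg k
      nlinarith
    obtain ⟨y, hy⟩ := Nat.exists_eq_succ_of_ne_zero h1
    have h2 : ¬ ((k : ℝ) + 1) ^ 2 ≤ M y := by
      apply Nat.find_min (hex k)
      have : x k = Nat.find (hex k) := by rw [hx]
      omega
    rw [hy]
    push Not at h2
    linarith [hjump y]
  have hxN : ∀ k N : ℕ, x k ≤ N ↔ ((k : ℝ) + 1) ^ 2 ≤ M N := by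
    intro k N
    constructor
    · intro h
      exact (hx1 k).trans (hmono h)
    · intro h
      rw [hx]
      exact Nat.find_min' (hex k) h
  -- Borel-Cantelli
  have hBC : ∀ j : ℕ, ∀ᵐ ω ∂μ, ∀ᶠ k in atTop,
      |(cc A ω (x k) : ℝ) - M (x k)| < (1 / ((j : ℝ) + 1)) * M (x k) := by
    intro j
    have hj : (0 : ℝ) < 1 / ((j : ℝ) + 1) := by positivity
    have h1 : Summable (fun k => μ.real {ω | (1 / ((j : ℝ) + 1)) * M (x k) ≤
        |(cc A ω (x k) : ℝ) - M (x k)|}) := by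
      have h2 : Summable (fun k : ℕ => ((j : ℝ) + 1) ^ 2 * (1 / ((k : ℝ) + 1) ^ 2)) := by
        apply Summable.mul_left
        have h3 := (summable_nat_add_iff 1).2 (Real.summable_one_div_nat_pow.2 (by norm_num : 1 < 2))
        refine h3.congr fun k => ?_
        push_cast
        rfl
      refine Summable.of_nonneg_of_le (fun k => measureReal_nonneg) (fun k => ?_) h2
      have h4 : 0 < M (x k) := lt_of_lt_of_le (by positivity : (0 : ℝ) < ((k : ℝ) + 1) ^ 2) (hx1 k)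
      have h5 := cheb (μ := μ) A hA hneg (x k) ((1 / ((j : ℝ) + 1)) * M (x k)) (by positivity)
      have h6 : ∑ n ∈ range (x k), μ.real (A n) = M (x k) := by rw [hMd]
      rw [h6] at h5
      refine h5.trans ?_
      have h7 : M (x k) / (1 / ((j : ℝ) + 1) * M (x k)) ^ 2 = ((j : ℝ) + 1) ^ 2 * (1 / M (x k)) := by
        field_simp
      rw [h7]
      gcongr
      exact hx1 k
    filter_upwards [borel h1] with ω hω
    filter_upwards [hω] with k hk
    simp only [not_le] at hk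
    exact hk
  rw [← ae_all_iff] at hBC
  filter_upwards [hBC] with ω hω
  -- deterministic part
  have hcm := cc_mono A ω
  have hMe : ∀ N, ∑ n ∈ range N, μ.real (A n) = M N := fun N => by rw [hMd]
  simp_rw [hMe]
  rw [Metric.tendsto_atTop']
  intro ε hε
  obtain ⟨η, hη0, hη1, hη⟩ : ∃ η : ℝ, 0 < η ∧ η ≤ 1 / 2 ∧ 4 * η < ε := by
    refine ⟨min (1 / 2) (ε / 8), by positivity, min_le_left _ _, ?_⟩
    have := min_le_right (1 / 2) (ε / 8)
    linarith
  obtain ⟨j, hj⟩ := exists_nat_one_div_lt hη0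
  have h1 := hω j
  have h2 : ∀ᶠ k : ℕ in atTop, 3 / η ≤ (k : ℝ) := tendsto_natCast_atTop_atTop.eventually_ge_atTop _
  obtain ⟨k₀, hk₀⟩ := eventually_atTop.1 (h1.and h2)
  refine ⟨x (k₀ + 1), fun N hN => ?_⟩
  -- find the block
  obtain ⟨k, hk1, hk2, hk3⟩ : ∃ k, k₀ ≤ k ∧ x k ≤ N ∧ N < x (k + 1) := by
    have hub : ∃ K, N < x K := by
      obtain ⟨K, hK⟩ := exists_nat_gt (M N)
      refine ⟨K, ?_⟩
      by_contra hcon
      push Not at hcon
      have h3 := (hxN K N).1 hcon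
      have h4 : (0 : ℝ) ≤ K := Nat.cast_nonneg K
      nlinarith
    have h3 := Nat.find_spec hub
    have h4 : Nat.find hub ≠ 0 := by
      intro h0
      rw [h0] at h3
      have h5 : x 0 ≤ x (k₀ + 1) := by
        rw [hxN 0 (x (k₀ + 1))]
        refine le_trans ?_ (hx1 (k₀ + 1))
        have : (0 : ℝ) ≤ ((k₀ + 1 : ℕ) : ℝ) := Nat.cast_nonneg _
        push_cast at this ⊢
        nlinarith
      omega
    obtain ⟨k, hk⟩ := Nat.exists_eq_succ_of_ne_zero h4
    refine ⟨k, ?_, ?_, ?_⟩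
    · by_contra hcon
      push Not at hcon
      have h5 : x (k + 1) ≤ x (k₀ + 1) := by
        rw [hxN (k + 1) (x (k₀ + 1))]
        refine le_trans ?_ (hx1 (k₀ + 1))
        have h6 : ((k + 1 : ℕ) : ℝ) ≤ ((k₀ + 1 : ℕ) : ℝ) := by exact_mod_cast (by omega : k + 1 ≤ k₀ + 1)
        have h7 : (0 : ℝ) ≤ ((k + 1 : ℕ) : ℝ) := Nat.cast_nonneg _
        gcongr
      rw [hk] at h3
      have : N < x (k + 1) := h3
      omega
    · have := Nat.find_min hub (m := k) (by omega)
      omega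
    · rw [hk] at h3
      exact h3
  have hA1 := hk₀ k hk1
  have hA2 := hk₀ (k + 1) (by omega)
  have hkη : 3 / η ≤ (k : ℝ) := hA1.2
  rw [div_le_iff₀ hη0] at hkη
  have hM1 : 0 < M (x k) := lt_of_lt_of_le (by positivity : (0 : ℝ) < ((k : ℝ) + 1) ^ 2) (hx1 k)
  have hM2 : 0 < M (x (k + 1)) :=
    lt_of_lt_of_le (by positivity : (0 : ℝ) < (((k + 1 : ℕ) : ℝ) + 1) ^ 2) (hx1 (k + 1))
  have hMa : M (x k) ≤ M N := hmono hk2
  have hMb : M N ≤ M (x (k + 1)) := hmono hk3.le
  have hMN : 0 < M N := lt_of_lt_of_le hM1 hMa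
  have hca : (cc A ω (x k) : ℝ) ≤ cc A ω N := by exact_mod_cast hcm hk2
  have hcb : (cc A ω N : ℝ) ≤ cc A ω (x (k + 1)) := by exact_mod_cast hcm hk3.le
  have hratio : M (x (k + 1)) ≤ (1 + η) * M (x k) := by
    have h3 := hx2 (k + 1)
    have h4 := hx1 k
    push_cast at h3
    have hk0 : (0 : ℝ) ≤ k := Nat.cast_nonneg k
    have h5 : ((k : ℝ) + 1 + 1) ^ 2 + 1 ≤ (1 + η) * ((k : ℝ) + 1) ^ 2 := by nlinarith
    have h6 : (1 + η) * ((k : ℝ) + 1) ^ 2 ≤ (1 + η) * M (x k) := by gcongr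
    linarith
  have hj1 : 1 / ((j : ℝ) + 1) * M (x k) ≤ η * M (x k) := by gcongr
  have hj2 : 1 / ((j : ℝ) + 1) * M (x (k + 1)) ≤ η * M (x (k + 1)) := by gcongr
  have hB1 := abs_lt.1 hA1.1
  have hB2 := abs_lt.1 hA2.1
  rw [Real.dist_eq]
  have hup : (cc A ω N : ℝ) ≤ (1 + η) * ((1 + η) * M N) := by
    calc (cc A ω N : ℝ) ≤ cc A ω (x (k + 1)) := hcb
      _ ≤ (1 + η) * M (x (k + 1)) := by linarith
      _ ≤ (1 + η) * ((1 + η) * M (x k)) := by gcongr
      _ ≤ (1 + η) * ((1 + η) * M N) := by gcongr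
  have hlow : (1 - 2 * η) * M N ≤ cc A ω N := by
    have h3 : (1 - η) * M (x k) ≤ cc A ω N := by linarith
    have h4 : M N ≤ (1 + η) * M (x k) := hMb.trans hratio
    have h5 : (1 - 2 * η) * M N ≤ (1 - 2 * η) * ((1 + η) * M (x k)) :=
      mul_le_mul_of_nonneg_left h4 (by linarith)
    nlinarith
  rw [abs_lt]
  constructor
  · have : 1 - 2 * η ≤ (cc A ω N : ℝ) / M N := by rw [le_div_iff₀ hMN]; exact hlow
    linarith
  · have : (cc A ω N : ℝ) / M N ≤ (1 + η) * (1 + η) := by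
      rw [div_le_iff₀ hMN]
      linarith
    nlinarith

end Pool.Agent.U839.Fb
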