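import Mathlib
import Pool.Agent.U839.Sv.Crit

set_option autoImplicit false

/-! # The probability of a long gap, with its constant -/

open MeasureTheory ProbabilityTheory Filter Finset Topology

namespace Pool.Agent.U839.Fb

open Pool.Agent.U839.Thin (tlog)

/-- weights with bounded discrepancy -/
structure Wt (g : ℕ → ℝ) (κ lam D : ℝ) : Prop where
  hκ : 0 < κ
  hlam : 0 < lam
  val : ∀ n, g n = 0 ∨ g n = κ
  disc : ∀ n w : ℕ, |∑ m ∈ Ioc n (n + w), g m - lam * w| ≤ D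

theorem Wt.nonneg {g : ℕ → ℝ} {κ lam D : ℝ} (h : Wt g κ lam D) (n : ℕ) : 0 ≤ g n := by
  rcases h.val n with h1 | h1 <;> rw [h1]
  exact h.hκ.le

theorem Wt.le {g : ℕ → ℝ} {κ lam D : ℝ} (h : Wt g κ lam D) (n : ℕ) : g n ≤ κ := by
  rcases h.val n with h1 | h1 <;> rw [h1]
  exact h.hκ.le

theorem Wt.sq {g : ℕ → ℝ} {κ lam D : ℝ} (h : Wt g κ lam D) (n : ℕ) : g n * g n = κ * g n := by
  rcases h.val n with h1 | h1 <;> rw [h1]
  simp

theorem Wt.D_nonneg {g : ℕ → ℝ} {κ lam D : ℝ} (h : Wt g κ lam D) : 0 ≤ D :=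
  (abs_nonneg _).trans (h.disc 0 0)

/-- the length of the gap -/
noncomputable def wb (lam b : ℝ) (n : ℕ) : ℕ := ⌊((Real.log n) ^ 2 + b * Real.log n) / lam⌋₊

theorem log_taylor (x : ℝ) (h0 : 0 ≤ x) (h1 : x ≤ 1 / 2) : |Real.log (1 - x) + x + x ^ 2 / 2| ≤ 2 * x ^ 3 := by
  have h := Real.abs_log_sub_add_sum_range_le (x := x) (by rw [abs_of_nonneg h0]; linarith) 2
  simp only [Finset.sum_range_succ, Finset.sum_range_zero, zero_add, pow_one, Nat.cast_zero,
    Nat.cast_one, div_one] at h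
  rw [abs_of_nonneg h0] at h
  have e : x + x ^ 2 / 2 + Real.log (1 - x) = Real.log (1 - x) + x + x ^ 2 / 2 := by ring
  have h2 : x + x ^ (1 + 1) / (1 + 1) + Real.log (1 - x) = Real.log (1 - x) + x + x ^ 2 / 2 := by
    norm_num
    ring
  rw [h2] at h
  refine h.trans ?_
  have h3 : x ^ (2 + 1) / (1 - x) ≤ x ^ 3 / (1 / 2) := by
    apply div_le_div_of_nonneg_left (by positivity) (by norm_num) (by linarith)
  refine h3.trans (le_of_eq ?_)
  ring

theorem sums (g : ℕ → ℝ) (κ lam D b : ℝ) (h : Wt g κ lam D) : ∃ C : ℝ, 0 < C ∧ ∀ᶠ n : ℕ in atTop,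
    (∀ m, n < m → 0 ≤ g m / Real.log m ∧ g m / Real.log m ≤ 1 / 2) ∧
    |∑ m ∈ Ioc n (n + wb lam b n), Real.log (1 - g m / Real.log m) + Real.log n + b + κ / 2| ≤
      C / Real.log n := by
  have hκ := h.hκ
  have hlam := h.hlam
  have hD := h.D_nonneg
  -- constants
  obtain ⟨C₁, hC₁⟩ : ∃ C₁ : ℝ, C₁ = D + lam + 1 := ⟨_, rfl⟩
  have hC₁0 : 0 < C₁ := by rw [hC₁]; linarith
  refine ⟨C₁ + κ * (1 + 2 * |b| + 2 * C₁) / 2 + 2 * κ ^ 2 * (1 + |b| + C₁), by positivity, ?_⟩
  have E1 : ∀ᶠ n : ℕ in atTop, (κ * (2 / lam) ^ 2 + 2 / lam) * (Real.log n) ^ 3 ≤ n := by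
    obtain ⟨A, hA⟩ : ∃ A, A = κ * (2 / lam) ^ 2 + 2 / lam := ⟨_, rfl⟩
    have hA0 : 0 < A := by rw [hA]; positivity
    rw [← hA]
    have h1 := (isLittleO_log_rpow_atTop (r := 1 / 4) (by norm_num)).bound
      (show (0 : ℝ) < 1 by norm_num)
    have h2 : ∀ᶠ x : ℝ in atTop, A ≤ x ^ (1 / 4 : ℝ) :=
      (tendsto_rpow_atTop (by norm_num)).eventually_ge_atTop _
    filter_upwards [tendsto_natCast_atTop_atTop.eventually h1,
      tendsto_natCast_atTop_atTop.eventually h2, eventually_ge_atTop 1] with x g1 g2 g3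
    have hx1 : (1 : ℝ) ≤ x := by exact_mod_cast g3
    have hx0 : (0 : ℝ) < x := by linarith
    rw [Real.norm_of_nonneg (Real.log_nonneg hx1), Real.norm_of_nonneg (by positivity), one_mul] at g1
    have g4 : (Real.log x) ^ 3 ≤ ((x : ℝ) ^ (1 / 4 : ℝ)) ^ 3 :=
      pow_le_pow_left₀ (Real.log_nonneg hx1) g1 3
    have g5 : ((x : ℝ) ^ (1 / 4 : ℝ)) ^ 3 = (x : ℝ) ^ (3 / 4 : ℝ) := by
      rw [← Real.rpow_natCast, ← Real.rpow_mul hx0.le]
      norm_num
    have g6 : (x : ℝ) ^ (1 / 4 : ℝ) * (x : ℝ) ^ (3 / 4 : ℝ) = x := by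
      rw [← Real.rpow_add hx0]
      norm_num
    rw [g5] at g4
    calc A * (Real.log x) ^ 3 ≤ (x : ℝ) ^ (1 / 4 : ℝ) * (x : ℝ) ^ (3 / 4 : ℝ) := by
          apply mul_le_mul g2 g4 (by positivity) (by positivity)
      _ = x := g6
  filter_upwards [E1, tlog.eventually_ge_atTop (|b| + 1), tlog.eventually_ge_atTop (2 * κ),
    tlog.eventually_ge_atTop (1 + C₁), eventually_ge_atTop 1] with n g1 g2 g3 g4 g5
  have hn0 : (0 : ℝ) < n := by exact_mod_cast g5
  obtain ⟨L, hL⟩ : ∃ L, L = Real.log n := ⟨_, rfl⟩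
  rw [← hL] at g1 g2 g3 g4 ⊢
  have hb0 := abs_nonneg b
  have hL1 : 1 ≤ L := by linarith
  have hL0 : 0 < L := by linarith
  have hlogm : ∀ m : ℕ, n < m → L ≤ Real.log m := by
    intro m hm
    rw [hL]
    exact Real.log_le_log hn0 (by exact_mod_cast hm.le)
  have hρ : ∀ m : ℕ, n < m → 0 ≤ g m / Real.log m ∧ g m / Real.log m ≤ κ / L := by
    intro m hm
    have h1 := hlogm m hm
    refine ⟨div_nonneg (h.nonneg m) (by linarith), ?_⟩
    exact div_le_div₀ hκ.le (h.le m) hL0 h1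
  have hκL : κ / L ≤ 1 / 2 := by
    rw [div_le_iff₀ hL0]; linarith
  refine ⟨fun m hm => ⟨(hρ m hm).1, (hρ m hm).2.trans hκL⟩, ?_⟩
  obtain ⟨w, hw⟩ : ∃ w, w = wb lam b n := ⟨_, rfl⟩
  rw [← hw]
  have hpos : 0 ≤ (L ^ 2 + b * L) / lam := by
    apply div_nonneg _ hlam.le
    have := neg_abs_le b
    nlinarith
  have hw1 : lam * (w : ℝ) ≤ L ^ 2 + b * L := by
    have h1 : (w : ℝ) ≤ (L ^ 2 + b * L) / lam := by
      rw [hw]; unfold wb; rw [← hL]; exact Nat.floor_le hpos
    rw [le_div_iff₀ hlam] at h1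
    linarith
  have hw2 : L ^ 2 + b * L - lam ≤ lam * w := by
    have h1 : (L ^ 2 + b * L) / lam < w + 1 := by
      rw [hw]; unfold wb; rw [← hL]; exact Nat.lt_floor_add_one _
    rw [div_lt_iff₀ hlam] at h1
    linarith
  have hw3 : (w : ℝ) ≤ 2 / lam * L ^ 2 := by
    rw [div_mul_eq_mul_div, le_div_iff₀ hlam]
    have := le_abs_self b
    nlinarith
  have hw0 : (0 : ℝ) ≤ w := Nat.cast_nonneg _
  -- the sums
  obtain ⟨s, hs⟩ : ∃ s, s = ∑ m ∈ Ioc n (n + w), g m / Real.log m := ⟨_, rfl⟩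
  have hs0 : 0 ≤ s := by
    rw [hs]
    exact sum_nonneg fun m hm => (hρ m (mem_Ioc.1 hm).1).1
  have hvar : ∀ m ∈ Ioc n (n + w), |1 / Real.log m - 1 / L| ≤ w / (n * L ^ 2) := by
    intro m hm
    rw [Finset.mem_Ioc] at hm
    have hm0 : (0 : ℝ) < m := by
      have : (n : ℝ) ≤ m := by exact_mod_cast hm.1.le
      linarith
    have k1 := hlogm m hm.1
    have k0 : 0 < Real.log m := by linarith
    have k2 : Real.log m - L ≤ w / n := by
      rw [hL, ← Real.log_div hm0.ne' hn0.ne']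
      refine (Real.log_le_sub_one_of_pos (by positivity)).trans ?_
      have k3 : (m : ℝ) ≤ n + w := by exact_mod_cast hm.2
      rw [div_sub_one hn0.ne']
      gcongr
      linarith
    have k4 : 1 / Real.log m - 1 / L = -((Real.log m - L) / (Real.log m * L)) := by
      field_simp
      ring
    rw [k4, abs_neg, abs_of_nonneg (div_nonneg (by linarith) (by positivity))]
    calc (Real.log m - L) / (Real.log m * L) ≤ (w / n) / (L * L) := by
          apply div_le_div₀ (by positivity) k2 (by positivity)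
          exact mul_le_mul_of_nonneg_right k1 hL0.le
      _ = w / (n * L ^ 2) := by
          rw [div_div]
          congr 1
          ring
  have hcardw : ((Ioc n (n + w)).card : ℝ) = w := by
    rw [Nat.card_Ioc]
    congr 1
    omega
  -- first sum
  have hA0 : κ * (2 / lam) ^ 2 * L ^ 3 ≤ n := by
    refine le_trans ?_ g1
    gcongr
    have : 0 ≤ 2 / lam := by positivity
    linarith
  have hwn : (w : ℝ) ≤ n := by
    have h1 : 2 / lam * L ^ 3 ≤ n := by
      refine le_trans ?_ g1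
      gcongr
      have : 0 ≤ κ * (2 / lam) ^ 2 := by positivity
      linarith
    refine hw3.trans (le_trans ?_ h1)
    have h2 : L ^ 2 ≤ L ^ 3 := pow_le_pow_right₀ hL1 (by norm_num)
    have : 0 ≤ 2 / lam := by positivity
    exact mul_le_mul_of_nonneg_left h2 this
  have hs1 : |s - (L + b)| ≤ C₁ / L := by
    have e1 : |s - (∑ m ∈ Ioc n (n + w), g m) / L| ≤ κ * w * (w / (n * L ^ 2)) := by
      rw [hs, Finset.sum_div, ← Finset.sum_sub_distrib]
      refine (Finset.abs_sum_le_sum_abs _ _).trans ?_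
      have e2 : ∀ m ∈ Ioc n (n + w), |g m / Real.log m - g m / L| ≤ κ * (w / (n * L ^ 2)) := by
        intro m hm
        have e3 : g m / Real.log m - g m / L = g m * (1 / Real.log m - 1 / L) := by ring
        rw [e3, abs_mul, abs_of_nonneg (h.nonneg m)]
        exact mul_le_mul (h.le m) (hvar m hm) (abs_nonneg _) hκ.le
      refine (Finset.sum_le_sum e2).trans (le_of_eq ?_)
      rw [Finset.sum_const, nsmul_eq_mul, hcardw]
      ring
    have e4 : κ * w * (w / (n * L ^ 2)) ≤ 1 / L := by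
      have e5 : κ * w * (w / (n * L ^ 2)) = κ * (w * w) / (n * L ^ 2) := by ring
      rw [e5, div_le_div_iff₀ (by positivity) hL0]
      have e6 : (w : ℝ) * w ≤ (2 / lam * L ^ 2) * (2 / lam * L ^ 2) := by gcongr
      calc κ * (w * w) * L ≤ κ * ((2 / lam * L ^ 2) * (2 / lam * L ^ 2)) * L := by gcongr
        _ = (κ * (2 / lam) ^ 2 * L ^ 3) * L ^ 2 := by ring
        _ ≤ n * L ^ 2 := by gcongr
        _ = 1 * (n * L ^ 2) := by ring
    have e7 : |(∑ m ∈ Ioc n (n + w), g m) / L - lam * w / L| ≤ D / L := by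
      rw [← sub_div, abs_div, abs_of_pos hL0]
      gcongr
      exact h.disc n w
    have e8 : |lam * w / L - (L + b)| ≤ lam / L := by
      have e9 : lam * w / L - (L + b) = (lam * w - (L ^ 2 + b * L)) / L := by
        field_simp
      rw [e9, abs_div, abs_of_pos hL0]
      gcongr
      rw [abs_le]
      constructor <;> linarith
    calc |s - (L + b)| = |(s - (∑ m ∈ Ioc n (n + w), g m) / L) +
          ((∑ m ∈ Ioc n (n + w), g m) / L - lam * w / L) + (lam * w / L - (L + b))| := by ring_nf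
      _ ≤ 1 / L + D / L + lam / L := by
          refine (abs_add_le _ _).trans (add_le_add ((abs_add_le _ _).trans (add_le_add ?_ e7)) e8)
          exact e1.trans e4
      _ = C₁ / L := by rw [hC₁]; ring
  have hC₁L : C₁ / L ≤ 1 := by
    rw [div_le_one hL0]; linarith
  have hsle : s ≤ (1 + |b| + C₁) * L := by
    have h1 := (abs_le.1 hs1).2
    have h2 := le_abs_self b
    nlinarith
  -- second sum
  obtain ⟨s₂, hs₂⟩ : ∃ s₂, s₂ = ∑ m ∈ Ioc n (n + w), (g m / Real.log m) ^ 2 := ⟨_, rfl⟩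
  have hs2 : |s₂ - κ| ≤ κ * (1 + 2 * |b| + 2 * C₁) / L := by
    have e1 : |s₂ - κ * s / L| ≤ κ * s * (w / (n * L ^ 2)) := by
      rw [hs₂, hs, Finset.mul_sum, Finset.sum_div, ← Finset.sum_sub_distrib, Finset.sum_mul]
      refine (Finset.abs_sum_le_sum_abs _ _).trans (Finset.sum_le_sum fun m hm => ?_)
      have hm1 := (mem_Ioc.1 hm).1
      have hmpos : 0 < Real.log m := lt_of_lt_of_le hL0 (hlogm m hm1)
      have e3 : (g m / Real.log m) ^ 2 - κ * (g m / Real.log m) / L =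
          κ * (g m / Real.log m) * (1 / Real.log m - 1 / L) := by
        have e4 : (g m / Real.log m) ^ 2 = κ * (g m / Real.log m) * (1 / Real.log m) := by
          rw [div_pow, sq, sq, h.sq m]
          field_simp
        rw [e4]
        ring
      rw [e3, abs_mul, abs_of_nonneg (mul_nonneg hκ.le (hρ m hm1).1)]
      exact mul_le_mul_of_nonneg_left (hvar m hm) (mul_nonneg hκ.le (hρ m hm1).1)
    have e2 : κ * s * (w / (n * L ^ 2)) ≤ κ * (1 + |b| + C₁) / L := by
      have e5 : (w : ℝ) / (n * L ^ 2) ≤ 1 / L ^ 2 := by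
        rw [div_le_div_iff₀ (by positivity) (by positivity)]
        nlinarith [sq_nonneg L]
      calc κ * s * (w / (n * L ^ 2)) ≤ κ * ((1 + |b| + C₁) * L) * (1 / L ^ 2) := by gcongr
        _ = κ * (1 + |b| + C₁) / L := by field_simp
    have e6 : |κ * s / L - κ| ≤ κ * (|b| + C₁) / L := by
      have e7 : κ * s / L - κ = κ * (s - L) / L := by field_simp
      rw [e7, abs_div, abs_mul, abs_of_pos hκ, abs_of_pos hL0]
      gcongr
      have e8 : s - L = (s - (L + b)) + b := by ring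
      rw [e8]
      refine (abs_add_le _ _).trans ?_
      have e9 : C₁ / L ≤ C₁ := div_le_self hC₁0.le hL1
      linarith
    calc |s₂ - κ| = |(s₂ - κ * s / L) + (κ * s / L - κ)| := by ring_nf
      _ ≤ κ * (1 + |b| + C₁) / L + κ * (|b| + C₁) / L :=
          (abs_add_le _ _).trans (add_le_add (e1.trans e2) e6)
      _ = κ * (1 + 2 * |b| + 2 * C₁) / L := by ring
  -- the remainder
  have hs3 : |∑ m ∈ Ioc n (n + w), Real.log (1 - g m / Real.log m) + s + s₂ / 2| ≤
      2 * κ ^ 2 * (1 + |b| + C₁) / L := by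
    rw [hs, hs₂, Finset.sum_div, ← Finset.sum_add_distrib, ← Finset.sum_add_distrib]
    refine (Finset.abs_sum_le_sum_abs _ _).trans ?_
    have e1 : ∀ m ∈ Ioc n (n + w), |Real.log (1 - g m / Real.log m) + g m / Real.log m +
        (g m / Real.log m) ^ 2 / 2| ≤ 2 * (κ / L) ^ 2 * (g m / Real.log m) := by
      intro m hm
      have h1 := hρ m (mem_Ioc.1 hm).1
      refine (log_taylor _ h1.1 (h1.2.trans hκL)).trans ?_
      calc 2 * (g m / Real.log m) ^ 3 = 2 * (g m / Real.log m) ^ 2 * (g m / Real.log m) := by ring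
        _ ≤ 2 * (κ / L) ^ 2 * (g m / Real.log m) := by
            apply mul_le_mul_of_nonneg_right _ h1.1
            have := pow_le_pow_left₀ h1.1 h1.2 2
            linarith
    refine (Finset.sum_le_sum e1).trans ?_
    rw [← Finset.mul_sum, ← hs]
    calc 2 * (κ / L) ^ 2 * s ≤ 2 * (κ / L) ^ 2 * ((1 + |b| + C₁) * L) := by gcongr
      _ = 2 * κ ^ 2 * (1 + |b| + C₁) / L := by field_simp
  calc |∑ m ∈ Ioc n (n + w), Real.log (1 - g m / Real.log m) + L + b + κ / 2|
      = |(∑ m ∈ Ioc n (n + w), Real.log (1 - g m / Real.log m) + s + s₂ / 2) -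
          (s - (L + b)) - (s₂ - κ) / 2| := by ring_nf
    _ ≤ 2 * κ ^ 2 * (1 + |b| + C₁) / L + C₁ / L + κ * (1 + 2 * |b| + 2 * C₁) / L / 2 := by
        refine (abs_sub _ _).trans (add_le_add ((abs_sub _ _).trans (add_le_add hs3 hs1)) ?_)
        rw [abs_div, abs_of_pos (by norm_num : (0 : ℝ) < 2)]
        gcongr
    _ = (C₁ + κ * (1 + 2 * |b| + 2 * C₁) / 2 + 2 * κ ^ 2 * (1 + |b| + C₁)) / L := by ring

/-- the product, with its constant -/
theorem prodlim (g : ℕ → ℝ) (κ lam D b : ℝ) (h : Wt g κ lam D) :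
    Tendsto (fun n : ℕ => (n : ℝ) * ∏ m ∈ Ioc n (n + wb lam b n), (1 - g m / Real.log m)) atTop
      (𝓝 (Real.exp (-b - κ / 2))) := by
  obtain ⟨C, hC, hs⟩ := sums g κ lam D b h
  have h1 : Tendsto (fun n : ℕ => ∑ m ∈ Ioc n (n + wb lam b n), Real.log (1 - g m / Real.log m) +
      Real.log n + b + κ / 2) atTop (𝓝 0) := by
    rw [tendsto_zero_iff_abs_tendsto_zero]
    refine squeeze_zero' (Eventually.of_forall fun n => abs_nonneg _) (hs.mono fun n hn => hn.2) ?_
    exact tlog.const_div_atTop C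
  have h2 : Tendsto (fun n : ℕ => Real.exp (∑ m ∈ Ioc n (n + wb lam b n),
      Real.log (1 - g m / Real.log m) + Real.log n + b + κ / 2) * Real.exp (-b - κ / 2)) atTop
      (𝓝 (Real.exp 0 * Real.exp (-b - κ / 2))) :=
    ((Real.continuous_exp.tendsto 0).comp h1).mul_const _
  rw [Real.exp_zero, one_mul] at h2
  refine h2.congr' ?_
  filter_upwards [hs, eventually_ge_atTop 1] with n hn hn1
  have hn0 : (0 : ℝ) < n := by exact_mod_cast hn1
  have h3 : ∏ m ∈ Ioc n (n + wb lam b n), (1 - g m / Real.log m) =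
      Real.exp (∑ m ∈ Ioc n (n + wb lam b n), Real.log (1 - g m / Real.log m)) := by
    rw [Real.exp_sum]
    refine Finset.prod_congr rfl fun m hm => ?_
    have h4 := hn.1 m (mem_Ioc.1 hm).1
    rw [Real.exp_log (by linarith)]
  rw [h3, ← Real.exp_add]
  have h5 : (n : ℝ) = Real.exp (Real.log n) := (Real.exp_log hn0).symm
  nth_rewrite 2 [h5]
  rw [← Real.exp_add]
  congr 1
  ring

end Pool.Agent.U839.Fb
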