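import Mathlib
import Pool.Agent.U839.Fb.Prod

set_option autoImplicit false

/-! # Sums over `1/(n log n)` with bounded discrepancy weights -/

open MeasureTheory ProbabilityTheory Filter Finset Topology

namespace Pool.Agent.U839.Fb

open Pool.Agent.U839.Thin (tlog)

noncomputable def uu (n : ℕ) : ℝ := 1 / (((n : ℝ) + 2) * Real.log ((n : ℝ) + 2))

theorem log2_pos (n : ℕ) : 0 < Real.log ((n : ℝ) + 2) := by
  apply Real.log_pos
  have : (0 : ℝ) ≤ n := Nat.cast_nonneg n
  linarith

theorem uu_pos (n : ℕ) : 0 < uu n := by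
  unfold uu
  have h1 := log2_pos n
  have h2 : (0 : ℝ) ≤ n := Nat.cast_nonneg n
  positivity

theorem uu_anti : Antitone uu := by
  apply antitone_nat_of_succ_le
  intro n
  unfold uu
  have h1 := log2_pos n
  have h2 : (0 : ℝ) ≤ n := Nat.cast_nonneg n
  have h3 : Real.log ((n : ℝ) + 2) ≤ Real.log (((n + 1 : ℕ) : ℝ) + 2) := by
    apply Real.log_le_log (by linarith)
    push_cast
    linarith
  apply one_div_le_one_div_of_le (by positivity)
  apply mul_le_mul _ h3 h1.le (by positivity)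
  push_cast
  linarith

theorem uu_lim : Tendsto uu atTop (𝓝 0) := by
  have h1 : Tendsto (fun n : ℕ => (n : ℝ) + 2) atTop atTop :=
    tendsto_atTop_add_const_right _ _ tendsto_natCast_atTop_atTop
  have h2 : Tendsto (fun n : ℕ => Real.log ((n : ℝ) + 2)) atTop atTop := Real.tendsto_log_atTop.comp h1
  have h3 : Tendsto (fun n : ℕ => ((n : ℝ) + 2) * Real.log ((n : ℝ) + 2)) atTop atTop :=
    h1.atTop_mul_atTop₀ h2
  unfold uu
  have h4 := h3.inv_tendsto_atTop
  refine h4.congr fun n => ?_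
  rw [Pi.inv_apply, one_div]

/-- the telescoping bounds -/
theorem uu_tele (n : ℕ) : uu (n + 1) ≤ Real.log (Real.log ((n : ℝ) + 3)) - Real.log (Real.log ((n : ℝ) + 2)) ∧
    Real.log (Real.log ((n : ℝ) + 3)) - Real.log (Real.log ((n : ℝ) + 2)) ≤ uu n := by
  have hn : (0 : ℝ) ≤ n := Nat.cast_nonneg n
  have h1 := log2_pos n
  have h2 : 0 < Real.log ((n : ℝ) + 3) := Real.log_pos (by linarith)
  have e : Real.log (Real.log ((n : ℝ) + 3)) - Real.log (Real.log ((n : ℝ) + 2)) =
      Real.log (Real.log ((n : ℝ) + 3) / Real.log ((n : ℝ) + 2)) := (Real.log_div h2.ne' h1.ne').symm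
  constructor
  · have h3 : Real.log (Real.log ((n : ℝ) + 2) / Real.log ((n : ℝ) + 3)) ≤
        Real.log ((n : ℝ) + 2) / Real.log ((n : ℝ) + 3) - 1 := Real.log_le_sub_one_of_pos (by positivity)
    have h4 : Real.log (Real.log ((n : ℝ) + 3) / Real.log ((n : ℝ) + 2)) =
        -Real.log (Real.log ((n : ℝ) + 2) / Real.log ((n : ℝ) + 3)) := by
      rw [← Real.log_inv, inv_div]
    have h5 : Real.log (((n : ℝ) + 2) / ((n : ℝ) + 3)) ≤ ((n : ℝ) + 2) / ((n : ℝ) + 3) - 1 :=
      Real.log_le_sub_one_of_pos (by positivity)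
    rw [Real.log_div (by positivity) (by positivity)] at h5
    have h6 : ((n : ℝ) + 2) / ((n : ℝ) + 3) - 1 = -(1 / ((n : ℝ) + 3)) := by
      field_simp
      ring
    rw [h6] at h5
    rw [e, h4]
    have h7 : uu (n + 1) = (1 / ((n : ℝ) + 3)) / Real.log ((n : ℝ) + 3) := by
      unfold uu
      push_cast
      rw [show (n : ℝ) + 1 + 2 = n + 3 by ring, div_div]
    rw [h7]
    have h8 : (1 / ((n : ℝ) + 3)) / Real.log ((n : ℝ) + 3) ≤
        (Real.log ((n : ℝ) + 3) - Real.log ((n : ℝ) + 2)) / Real.log ((n : ℝ) + 3) := by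
      gcongr
      linarith
    have h9 : (Real.log ((n : ℝ) + 3) - Real.log ((n : ℝ) + 2)) / Real.log ((n : ℝ) + 3) =
        1 - Real.log ((n : ℝ) + 2) / Real.log ((n : ℝ) + 3) := by
      field_simp
    linarith
  · rw [e]
    refine (Real.log_le_sub_one_of_pos (by positivity)).trans ?_
    have h5 : Real.log (((n : ℝ) + 3) / ((n : ℝ) + 2)) ≤ ((n : ℝ) + 3) / ((n : ℝ) + 2) - 1 :=
      Real.log_le_sub_one_of_pos (by positivity)
    rw [Real.log_div (by positivity) (by positivity)] at h5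
    have h6 : ((n : ℝ) + 3) / ((n : ℝ) + 2) - 1 = 1 / ((n : ℝ) + 2) := by
      field_simp
      ring
    rw [h6] at h5
    have h7 : uu n = (1 / ((n : ℝ) + 2)) / Real.log ((n : ℝ) + 2) := by
      unfold uu
      rw [div_div]
    rw [h7]
    have h8 : Real.log ((n : ℝ) + 3) / Real.log ((n : ℝ) + 2) - 1 =
        (Real.log ((n : ℝ) + 3) - Real.log ((n : ℝ) + 2)) / Real.log ((n : ℝ) + 2) := by
      field_simp
    rw [h8]
    gcongr

theorem uu_sum (N : ℕ) : |∑ n ∈ range N, uu n - Real.log (Real.log ((N : ℝ) + 2))| ≤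
    uu 0 + |Real.log (Real.log 2)| := by
  have h1 : ∀ N : ℕ, ∑ n ∈ range N, (Real.log (Real.log ((n : ℝ) + 3)) -
      Real.log (Real.log ((n : ℝ) + 2))) = Real.log (Real.log ((N : ℝ) + 2)) - Real.log (Real.log 2) := by
    intro N
    induction N with
    | zero => simp
    | succ N ih =>
      rw [Finset.sum_range_succ, ih]
      push_cast
      rw [show (N : ℝ) + 1 + 2 = N + 3 by ring]
      ring
  have h2 : Real.log (Real.log ((N : ℝ) + 2)) - Real.log (Real.log 2) ≤ ∑ n ∈ range N, uu n := by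
    rw [← h1 N]
    exact Finset.sum_le_sum fun n _ => (uu_tele n).2
  have h3 : ∑ n ∈ range N, uu n ≤ uu 0 + (Real.log (Real.log ((N : ℝ) + 2)) - Real.log (Real.log 2)) := by
    have h4 : ∑ n ∈ range (N + 1), uu n = ∑ n ∈ range N, uu (n + 1) + uu 0 := Finset.sum_range_succ' _ _
    have h5 : ∑ n ∈ range N, uu (n + 1) ≤ Real.log (Real.log ((N : ℝ) + 2)) - Real.log (Real.log 2) := by
      rw [← h1 N]
      exact Finset.sum_le_sum fun n _ => (uu_tele n).1
    have h6 : ∑ n ∈ range N, uu n ≤ ∑ n ∈ range (N + 1), uu n := by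
      rw [Finset.sum_range_succ]
      linarith [uu_pos N]
    linarith
  have h7 := neg_abs_le (Real.log (Real.log 2))
  have h8 := le_abs_self (Real.log (Real.log 2))
  have h9 := (uu_pos 0).le
  rw [abs_le]
  constructor <;> linarith

theorem tloglog : Tendsto (fun N : ℕ => Real.log (Real.log (N : ℝ))) atTop atTop :=
  Real.tendsto_log_atTop.comp tlog

theorem loglog_shift : Tendsto (fun N : ℕ => Real.log (Real.log ((N : ℝ) + 2)) -
    Real.log (Real.log (N : ℝ))) atTop (𝓝 0) := by
  have h1 : ∀ᶠ N : ℕ in atTop, 0 ≤ Real.log (Real.log ((N : ℝ) + 2)) - Real.log (Real.log (N : ℝ)) ∧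
      Real.log (Real.log ((N : ℝ) + 2)) - Real.log (Real.log (N : ℝ)) ≤ 2 / N := by
    filter_upwards [eventually_ge_atTop 2, tlog.eventually_ge_atTop 1] with N hN hL
    have hN0 : (0 : ℝ) < N := by exact_mod_cast (by omega : 0 < N)
    have hL0 : 0 < Real.log N := by linarith
    have h2 : Real.log N ≤ Real.log ((N : ℝ) + 2) := Real.log_le_log hN0 (by linarith)
    refine ⟨by linarith [Real.log_le_log hL0 h2], ?_⟩
    rw [← Real.log_div (by linarith) hL0.ne']
    have hq : 0 < Real.log ((N : ℝ) + 2) / Real.log N := div_pos (by linarith) hL0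
    refine (Real.log_le_sub_one_of_pos hq).trans ?_
    have h3 : Real.log ((N : ℝ) + 2) - Real.log N ≤ 2 / N := by
      rw [← Real.log_div (by linarith) hN0.ne']
      refine (Real.log_le_sub_one_of_pos (by positivity)).trans (le_of_eq ?_)
      field_simp
      ring
    have h4 : Real.log ((N : ℝ) + 2) / Real.log N - 1 =
        (Real.log ((N : ℝ) + 2) - Real.log N) / Real.log N := by
      field_simp
    rw [h4]
    refine (div_le_self (by linarith) hL).trans h3
  refine squeeze_zero' (h1.mono fun N hN => hN.1) (h1.mono fun N hN => hN.2) ?_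
  exact tendsto_natCast_atTop_atTop.const_div_atTop 2

theorem uu_ratio : Tendsto (fun N : ℕ => (∑ n ∈ range N, uu n) / Real.log (Real.log (N : ℝ))) atTop
    (𝓝 1) := by
  obtain ⟨K, hK⟩ : ∃ K, K = uu 0 + |Real.log (Real.log 2)| := ⟨_, rfl⟩
  have h1 : Tendsto (fun N : ℕ => (∑ n ∈ range N, uu n) / Real.log (Real.log (N : ℝ)) - 1) atTop
      (𝓝 0) := by
    have h2 : Tendsto (fun N : ℕ => (K + 1) / Real.log (Real.log (N : ℝ))) atTop (𝓝 0) :=
      tloglog.const_div_atTop _
    rw [tendsto_zero_iff_abs_tendsto_zero]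
    refine squeeze_zero' (Eventually.of_forall fun N => abs_nonneg _) ?_ h2
    filter_upwards [tloglog.eventually_gt_atTop 0,
      (loglog_shift.abs).eventually_le_const (show |(0 : ℝ)| < 1 by simp)] with N g1 g2
    have h3 := uu_sum N
    rw [← hK] at h3
    have h4 : (∑ n ∈ range N, uu n) / Real.log (Real.log (N : ℝ)) - 1 =
        ((∑ n ∈ range N, uu n - Real.log (Real.log ((N : ℝ) + 2))) +
          (Real.log (Real.log ((N : ℝ) + 2)) - Real.log (Real.log (N : ℝ)))) /
          Real.log (Real.log (N : ℝ)) := by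
      rw [sub_add_sub_cancel, sub_div, div_self g1.ne']
    rw [Function.comp_apply] 
    rw [h4, abs_div, abs_of_pos g1]
    gcongr
    exact (abs_add_le _ _).trans (add_le_add h3 g2)
  have := h1.add_const 1
  simpa using this

/-- Dirichlet's test: the weighted sum -/
theorem gu_ratio (g : ℕ → ℝ) (κ lam D : ℝ) (h : Wt g κ lam D) :
    Tendsto (fun N : ℕ => (∑ n ∈ range N, g (n + 2) * uu n) / Real.log (Real.log (N : ℝ))) atTop
    (𝓝 lam) := by
  have hb : ∀ n : ℕ, ‖∑ i ∈ range n, (g (i + 2) - lam)‖ ≤ D := by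
    intro n
    have h1 := h.disc 1 n
    have h2 : ∑ m ∈ Ioc 1 (1 + n), g m = ∑ i ∈ range n, g (i + 2) := by
      rw [← Finset.sum_image (s := range n) (g := fun i => i + 2) (f := g)
        (fun a _ b _ hab => by simpa using hab)]
      apply Finset.sum_congr _ (fun _ _ => rfl)
      ext m
      simp only [Finset.mem_Ioc, Finset.mem_image, Finset.mem_range]
      constructor
      · rintro ⟨h3, h4⟩
        exact ⟨m - 2, by omega, by omega⟩
      · rintro ⟨i, h3, h4⟩
        omega
    rw [h2] at h1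
    rw [Finset.sum_sub_distrib, Finset.sum_const, Finset.card_range, nsmul_eq_mul, mul_comm (n : ℝ) lam]
    exact h1
  have h2 := uu_anti.cauchySeq_series_mul_of_tendsto_zero_of_bounded uu_lim hb
  obtain ⟨K, hK⟩ := isBounded_iff_forall_norm_le.1 (CauchySeq.isBounded_range h2)
  have hK' : ∀ N : ℕ, |∑ n ∈ range N, g (n + 2) * uu n - lam * ∑ n ∈ range N, uu n| ≤ K := by
    intro N
    have h3 := hK _ ⟨N, rfl⟩
    simp only [smul_eq_mul] at h3
    rw [Real.norm_eq_abs] at h3
    rw [Finset.mul_sum, ← Finset.sum_sub_distrib]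
    convert h3 using 3
    ring
  have h3 : Tendsto (fun N : ℕ => (∑ n ∈ range N, g (n + 2) * uu n - lam * ∑ n ∈ range N, uu n) /
      Real.log (Real.log (N : ℝ))) atTop (𝓝 0) := by
    rw [tendsto_zero_iff_abs_tendsto_zero]
    refine squeeze_zero' (Eventually.of_forall fun N => abs_nonneg _) ?_
      (tloglog.const_div_atTop K)
    filter_upwards [tloglog.eventually_gt_atTop 0] with N g1
    rw [Function.comp_apply, abs_div, abs_of_pos g1]
    gcongr
    exact hK' N
  have h4 := h3.add (uu_ratio.const_mul lam)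
  rw [zero_add, mul_one] at h4
  refine h4.congr fun N => ?_
  ring

/-- the probabilities sum to a multiple of `log log x` -/
theorem F_ratio (g : ℕ → ℝ) (κ lam D b : ℝ) (h : Wt g κ lam D) (F : ℕ → ℝ)
    (hF : ∀ᶠ n : ℕ in atTop, F n = g n / Real.log n * ∏ m ∈ Ioc n (n + wb lam b n),
      (1 - g m / Real.log m)) :
    Tendsto (fun N : ℕ => (∑ n ∈ range N, F n) / Real.log (Real.log (N : ℝ))) atTop
    (𝓝 (lam * Real.exp (-b - κ / 2))) := by
  obtain ⟨Λ, hΛ⟩ : ∃ Λ, Λ = Real.exp (-b - κ / 2) := ⟨_, rfl⟩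
  have hP := prodlim g κ lam D b h
  rw [← hΛ] at hP ⊢
  obtain ⟨d, hd⟩ : ∃ d : ℕ → ℝ, d = fun n => F (n + 2) - Λ * (g (n + 2) * uu n) := ⟨_, rfl⟩
  have h1 : d =o[atTop] uu := by
    rw [Asymptotics.isLittleO_iff]
    intro c hc
    have hκ := h.hκ
    have h2 : ∀ᶠ n : ℕ in atTop, |(n : ℝ) * ∏ m ∈ Ioc n (n + wb lam b n), (1 - g m / Real.log m) - Λ| <
        c / κ := by
      have := Metric.tendsto_nhds.1 hP (c / κ) (by positivity)
      simpa only [Real.dist_eq] using this
    have hsh : Tendsto (fun n : ℕ => n + 2) atTop atTop := tendsto_add_atTop_nat 2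
    filter_upwards [hsh.eventually h2, hsh.eventually hF] with n g1 g2
    rw [hd]
    simp only
    rw [g2, Real.norm_of_nonneg (uu_pos n).le, Real.norm_eq_abs]
    obtain ⟨PP, hPP⟩ : ∃ PP : ℝ, PP = ∏ m ∈ Ioc (n + 2) (n + 2 + wb lam b (n + 2)),
      (1 - g m / Real.log m) := ⟨_, rfl⟩
    rw [← hPP] at g1 ⊢
    have hn : (0 : ℝ) ≤ n := Nat.cast_nonneg n
    have hlog := log2_pos n
    push_cast at g1 ⊢
    have e : g (n + 2) / Real.log ((n : ℝ) + 2) * PP - Λ * (g (n + 2) * uu n) =
        (g (n + 2) * uu n) * (((n : ℝ) + 2) * PP - Λ) := by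
      unfold uu
      field_simp
    rw [e, abs_mul, abs_of_nonneg (mul_nonneg (h.nonneg _) (uu_pos n).le)]
    calc g (n + 2) * uu n * |((n : ℝ) + 2) * PP - Λ| ≤ κ * uu n * (c / κ) := by
          apply mul_le_mul _ g1.le (abs_nonneg _) (mul_nonneg hκ.le (uu_pos n).le)
          exact mul_le_mul_of_nonneg_right (h.le _) (uu_pos n).le
      _ = c * uu n := by field_simp
  have hUtop : Tendsto (fun N : ℕ => ∑ n ∈ range N, uu n) atTop atTop := by
    have h2 := uu_ratio.pos_mul_atTop one_pos tloglog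
    refine h2.congr' ?_
    filter_upwards [tloglog.eventually_gt_atTop 0] with N g1
    rw [div_mul_cancel₀ _ g1.ne']
  have h2 := h1.sum_range (fun n => (uu_pos n).le) hUtop
  have h3 : Tendsto (fun N : ℕ => (∑ n ∈ range N, d n) / (∑ n ∈ range N, uu n)) atTop (𝓝 0) :=
    h2.tendsto_div_nhds_zero
  have h4 := h3.mul uu_ratio
  rw [zero_mul] at h4
  have h5 : Tendsto (fun N : ℕ => (∑ n ∈ range N, d n) / Real.log (Real.log (N : ℝ))) atTop (𝓝 0) := by
    refine h4.congr' ?_
    filter_upwards [hUtop.eventually_gt_atTop 0] with N g1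
    field_simp
  have h6 := h5.add ((gu_ratio g κ lam D h).const_mul Λ)
  rw [zero_add] at h6
  -- now shift by two
  have h7 : Tendsto (fun N : ℕ => (∑ n ∈ range N, F (n + 2)) / Real.log (Real.log (N : ℝ))) atTop
      (𝓝 (Λ * lam)) := by
    refine h6.congr fun N => ?_
    rw [hd]
    simp only [Finset.sum_sub_distrib, ← Finset.mul_sum]
    ring
  have h8 : Tendsto (fun N : ℕ => (F 0 + F 1) / Real.log (Real.log (N : ℝ))) atTop (𝓝 0) :=
    tloglog.const_div_atTop _
  have h9 := h7.add h8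
  rw [add_zero, mul_comm] at h9
  have h10 : Tendsto (fun N : ℕ => (∑ n ∈ range (N + 2), F n) / Real.log (Real.log (N : ℝ))) atTop
      (𝓝 (lam * Λ)) := by
    refine h9.congr fun N => ?_
    rw [Finset.sum_range_succ', Finset.sum_range_succ']
    ring
  have h11 : Tendsto (fun N : ℕ => Real.log (Real.log (N : ℝ)) / Real.log (Real.log ((N : ℝ) + 2))) atTop
      (𝓝 1) := by
    have h12 : Tendsto (fun N : ℕ => (Real.log (Real.log ((N : ℝ) + 2)) - Real.log (Real.log (N : ℝ))) /
        Real.log (Real.log (N : ℝ))) atTop (𝓝 0) := loglog_shift.div_atTop tloglog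
    have h13 := (h12.const_add 1).inv₀ (by norm_num)
    rw [add_zero, inv_one] at h13
    refine h13.congr' ?_
    filter_upwards [tloglog.eventually_gt_atTop 0] with N g1
    rw [← inv_div]
    congr 1
    field_simp
    ring
  have h12 := h10.mul h11
  rw [mul_one] at h12
  have h13 : Tendsto (fun N : ℕ => (∑ n ∈ range (N + 2), F n) / Real.log (Real.log ((N + 2 : ℕ) : ℝ)))
      atTop (𝓝 (lam * Λ)) := by
    refine h12.congr' ?_
    filter_upwards [tloglog.eventually_gt_atTop 0] with N g1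
    push_cast
    field_simp
  exact (tendsto_add_atTop_iff_nat (f := fun N : ℕ => (∑ n ∈ range N, F n) /
    Real.log (Real.log (N : ℝ))) 2).1 h13

end Pool.Agent.U839.Fb
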